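import Mathlib

set_option autoImplicit false

/-!
# Rotated choices of residues: counting pairs
-/

namespace Pool.Agent.X37.RO

open Finset

/-- integers in a real interval -/
lemma card_int_le (x L : ℝ) (hL : 0 ≤ L) : ((Finset.Icc ⌈x⌉ ⌊x + L⌋).card : ℝ) ≤ L + 1 := by
  rw [Int.card_Icc]
  have h1 : (x : ℝ) ≤ ⌈x⌉ := Int.le_ceil x
  have h2 : (⌊x + L⌋ : ℝ) ≤ x + L := Int.floor_le _
  rcases le_or_gt 0 (⌊x + L⌋ + 1 - ⌈x⌉) with h | h
  · have e : (((⌊x + L⌋ + 1 - ⌈x⌉).toNat : ℕ) : ℝ) = ((⌊x + L⌋ + 1 - ⌈x⌉ : ℤ) : ℝ) := by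
      have : (((⌊x + L⌋ + 1 - ⌈x⌉).toNat : ℕ) : ℤ) = ⌊x + L⌋ + 1 - ⌈x⌉ := Int.toNat_of_nonneg h
      exact_mod_cast this
    rw [e]
    push_cast
    linarith
  · rw [Int.toNat_of_nonpos h.le]
    simp
    linarith

open Classical in
/-- the `n` for which `n δ - c` is close to an integer, `δ > 0` -/
lemma count_pos {δ : ℝ} (hδ : 0 < δ) (c : ℝ) {t : ℝ} (ht : 0 ≤ t) (M : ℕ) :
    ((((Finset.Icc 1 M).filter fun n : ℕ => ∃ m : ℤ, |n * δ - c - m| ≤ t).card : ℕ) : ℝ) ≤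
      (M * δ + 2 * t + 1) * (2 * t / δ + 1) := by
  set I : Finset ℤ := Finset.Icc ⌈-c - t⌉ ⌊(-c - t) + (M * δ + 2 * t)⌋ with hI
  have hI1 : (I.card : ℝ) ≤ M * δ + 2 * t + 1 := card_int_le _ _ (by positivity)
  have hsub : ((Finset.Icc 1 M).filter fun n : ℕ => ∃ m : ℤ, |n * δ - c - m| ≤ t) ⊆
      I.biUnion fun m => (Finset.Icc 1 M).filter fun n : ℕ => |n * δ - c - m| ≤ t := by
    intro n hn
    obtain ⟨hn1, m, hm⟩ := Finset.mem_filter.1 hn
    rw [Finset.mem_biUnion]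
    refine ⟨m, ?_, Finset.mem_filter.2 ⟨hn1, hm⟩⟩
    obtain ⟨h1, h2⟩ := abs_le.1 hm
    have hnM : (n : ℝ) ≤ M := by exact_mod_cast (Finset.mem_Icc.1 hn1).2
    have hn0 : (0 : ℝ) ≤ n := Nat.cast_nonneg n
    have h3 : (n : ℝ) * δ ≤ M * δ := mul_le_mul_of_nonneg_right hnM hδ.le
    have h4 : 0 ≤ (n : ℝ) * δ := by positivity
    rw [hI, Finset.mem_Icc, Int.ceil_le, Int.le_floor]
    constructor <;> linarith
  have hfib : ∀ m ∈ I, ((((Finset.Icc 1 M).filter fun n : ℕ => |n * δ - c - m| ≤ t).card : ℕ) : ℝ) ≤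
      2 * t / δ + 1 := by
    intro m _
    set K : Finset ℤ := Finset.Icc ⌈(c + m - t) / δ⌉ ⌊(c + m - t) / δ + 2 * t / δ⌋ with hK
    have hK1 : (K.card : ℝ) ≤ 2 * t / δ + 1 := card_int_le _ _ (by positivity)
    have h1 : ((Finset.Icc 1 M).filter fun n : ℕ => |n * δ - c - m| ≤ t).card ≤ K.card := by
      refine Finset.card_le_card_of_injOn (fun n : ℕ => (n : ℤ)) (fun n hn => ?_)
        (fun a _ c' _ h => Nat.cast_injective (R := ℤ) h)
      obtain ⟨h1, h2⟩ := abs_le.1 (Finset.mem_filter.1 hn).2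
      rw [Finset.mem_coe, hK, Finset.mem_Icc, Int.ceil_le, Int.le_floor]
      push_cast
      constructor
      · rw [div_le_iff₀ hδ]; linarith
      · rw [← add_div, le_div_iff₀ hδ]; linarith
    have h2 : ((((Finset.Icc 1 M).filter fun n : ℕ => |n * δ - c - m| ≤ t).card : ℕ) : ℝ) ≤ K.card := by
      exact_mod_cast h1
    linarith
  calc ((((Finset.Icc 1 M).filter fun n : ℕ => ∃ m : ℤ, |n * δ - c - m| ≤ t).card : ℕ) : ℝ)
      ≤ ((I.biUnion fun m => (Finset.Icc 1 M).filter fun n : ℕ => |n * δ - c - m| ≤ t).card : ℝ) := by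
        exact_mod_cast Finset.card_le_card hsub
    _ ≤ ∑ m ∈ I, ((((Finset.Icc 1 M).filter fun n : ℕ => |n * δ - c - m| ≤ t).card : ℕ) : ℝ) := by
        exact_mod_cast Finset.card_biUnion_le
    _ ≤ ∑ m ∈ I, (2 * t / δ + 1) := Finset.sum_le_sum hfib
    _ = I.card * (2 * t / δ + 1) := by rw [Finset.sum_const, nsmul_eq_mul]
    _ ≤ _ := mul_le_mul_of_nonneg_right hI1 (by positivity)

open Classical in
/-- the `n` for which `n δ - c` is close to an integer -/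
lemma count_ne {δ : ℝ} (hδ : δ ≠ 0) (c : ℝ) {t : ℝ} (ht : 0 ≤ t) (M : ℕ) :
    ((((Finset.Icc 1 M).filter fun n : ℕ => ∃ m : ℤ, |n * δ - c - m| ≤ t).card : ℕ) : ℝ) ≤
      (M * |δ| + 2 * t + 1) * (2 * t / |δ| + 1) := by
  rcases lt_or_gt_of_ne hδ with h | h
  · rw [abs_of_neg h]
    refine le_trans (le_of_eq ?_) (count_pos (neg_pos.2 h) (-c) ht M)
    congr 2
    refine Finset.filter_congr fun n _ => ?_
    constructor
    · rintro ⟨m, hm⟩
      refine ⟨-m, ?_⟩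
      have e : (n : ℝ) * (-δ) - -c - ((-m : ℤ) : ℝ) = -(n * δ - c - m) := by push_cast; ring
      rw [e, abs_neg]
      exact hm
    · rintro ⟨m, hm⟩
      refine ⟨-m, ?_⟩
      have e : (n : ℝ) * δ - c - ((-m : ℤ) : ℝ) = -(n * (-δ) - -c - m) := by push_cast; ring
      rw [e, abs_neg]
      exact hm
  · rw [abs_of_pos h]
    exact count_pos h c ht M

/-- the fuzzy condition -/
def Fz (b : (p : ℕ) → ZMod p) (p n : ℕ) (θ : ℝ) : Prop :=
  ∃ s : ℤ, |s| ≤ 1 ∧ (n : ZMod p) = b p + ((⌊θ * p⌋ + s : ℤ) : ZMod p)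

lemma Fz_real {b : (p : ℕ) → ZMod p} {p n : ℕ} (hp : 0 < p) {θ : ℝ} (h : Fz b p n θ) :
    ∃ m : ℤ, |θ - ((n : ℝ) - (b p).val) / p - m| ≤ 2 / p := by
  have : NeZero p := ⟨hp.ne'⟩
  have hp0 : (0 : ℝ) < p := by exact_mod_cast hp
  obtain ⟨s, hs, he⟩ := h
  have h1 : (((n : ℤ) - (b p).val - (⌊θ * p⌋ + s) : ℤ) : ZMod p) = 0 := by
    push_cast
    rw [ZMod.natCast_zmod_val]
    push_cast at he
    rw [he]
    ring
  rw [ZMod.intCast_zmod_eq_zero_iff_dvd] at h1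
  obtain ⟨m, hm⟩ := h1
  refine ⟨-m, ?_⟩
  have hm' : (n : ℝ) - (b p).val - (⌊θ * p⌋ + s) = p * m := by exact_mod_cast hm
  have hs' : |(s : ℝ)| ≤ 1 := by exact_mod_cast hs
  have hf1 := Int.floor_le (θ * p)
  have hf2 := Int.lt_floor_add_one (θ * p)
  have e : θ - ((n : ℝ) - (b p).val) / p - ((-m : ℤ) : ℝ) = (θ * p - ⌊θ * p⌋ - s) / p := by
    push_cast
    field_simp
    linarith
  rw [e, abs_div, abs_of_pos hp0]
  refine div_le_div_of_nonneg_right ?_ hp0.le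
  rw [abs_le] at hs' ⊢
  constructor <;> linarith [hs'.1, hs'.2]

lemma Fz_pair {b : (p : ℕ) → ZMod p} {p q n : ℕ} (hp : 0 < p) (hq : 0 < q) {θ : ℝ}
    (h1 : Fz b p n θ) (h2 : Fz b q n θ) :
    ∃ m : ℤ, |n * (1 / (p : ℝ) - 1 / q) - ((b p).val / (p : ℝ) - (b q).val / q) - m| ≤ 2 / p + 2 / q := by
  obtain ⟨m1, h1⟩ := Fz_real hp h1
  obtain ⟨m2, h2⟩ := Fz_real hq h2
  refine ⟨m2 - m1, ?_⟩
  have e : (n : ℝ) * (1 / (p : ℝ) - 1 / q) - ((b p).val / (p : ℝ) - (b q).val / q) - ((m2 - m1 : ℤ) : ℝ) =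
      (θ - ((n : ℝ) - (b q).val) / q - m2) - (θ - ((n : ℝ) - (b p).val) / p - m1) := by
    push_cast
    ring
  rw [e]
  calc _ ≤ |θ - ((n : ℝ) - (b q).val) / q - m2| + |θ - ((n : ℝ) - (b p).val) / p - m1| := abs_sub _ _
    _ ≤ _ := by linarith

/-- grid points near an exact point -/
lemma Fz_near {b : (p : ℕ) → ZMod p} {p n : ℕ} {θ θ' : ℝ} (hd : |θ - θ'| * p ≤ 1)
    (h : (n : ZMod p) = b p + ((⌊θ * p⌋ : ℤ) : ZMod p)) : Fz b p n θ' := by
  have hp0 : (0 : ℝ) ≤ p := Nat.cast_nonneg p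
  refine ⟨⌊θ * p⌋ - ⌊θ' * p⌋, ?_, ?_⟩
  · have h1 : |θ * p - θ' * p| ≤ 1 := by
      rw [← sub_mul, abs_mul, abs_of_nonneg hp0]; exact hd
    obtain ⟨h2, h3⟩ := abs_le.1 h1
    have a1 := Int.floor_le (θ * p)
    have a2 := Int.lt_floor_add_one (θ * p)
    have a3 := Int.floor_le (θ' * p)
    have a4 := Int.lt_floor_add_one (θ' * p)
    have b1 : (⌊θ * p⌋ : ℝ) < ⌊θ' * p⌋ + 2 := by linarith
    have b2 : (⌊θ' * p⌋ : ℝ) < ⌊θ * p⌋ + 2 := by linarith
    have c1 : ⌊θ * p⌋ < ⌊θ' * p⌋ + 2 := by exact_mod_cast b1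
    have c2 : ⌊θ' * p⌋ < ⌊θ * p⌋ + 2 := by exact_mod_cast b2
    rw [abs_le]
    constructor <;> linarith
  · rw [h]
    congr 2
    ring

/-- the number of triples -/
noncomputable def DD (b : (p : ℕ) → ZMod p) (I : Finset ℕ) (M : ℕ) (θ : ℝ) : ℕ :=
  open Classical in
  ∑ z ∈ I.offDiag, ((Finset.Icc 1 M).filter fun n => Fz b z.1 n θ ∧ Fz b z.2 n θ).card

open Classical in
/-- one pair, all grid points -/
lemma pair_grid (b : (p : ℕ) → ZMod p) {y : ℝ} (hy : 1 ≤ y) {p q M J : ℕ} (hpq : p ≠ q) (hp1 : y ≤ p)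
    (hp2 : (p : ℝ) ≤ 4 * y) (hq1 : y ≤ q) (hq2 : (q : ℝ) ≤ 4 * y) (hyM : y ≤ M) (hJ : 1 ≤ J)
    (hJ5 : (J : ℝ) ≤ 5 * y) :
    ∑ j ∈ Finset.Icc 1 J, ((((Finset.Icc 1 M).filter fun n => Fz b p n (j / J) ∧ Fz b q n (j / J)).card : ℕ) : ℝ)
      ≤ 147 * (19 * M / y + 1280 * y / |(p : ℝ) - q|) := by
  have hy0 : 0 < y := by linarith
  have hp0 : (0 : ℝ) < p := by linarith
  have hq0 : (0 : ℝ) < q := by linarith
  have hpN : 0 < p := by exact_mod_cast hp0
  have hqN : 0 < q := by exact_mod_cast hq0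
  have hJ0 : (0 : ℝ) < J := by exact_mod_cast hJ
  have hpq' : (p : ℝ) - q ≠ 0 := sub_ne_zero.2 (by exact_mod_cast hpq)
  have habs : 0 < |(p : ℝ) - q| := abs_pos.2 hpq'
  set δ : ℝ := 1 / (p : ℝ) - 1 / q with hδ
  have hδe : δ = (q - p) / (p * q) := by rw [hδ]; field_simp
  have hδabs : |δ| = |(p : ℝ) - q| / (p * q) := by
    rw [hδe, abs_div, abs_of_pos (mul_pos hp0 hq0), abs_sub_comm]
  have hδ0 : 0 < |δ| := by rw [hδabs]; positivity
  have hδne : δ ≠ 0 := abs_pos.1 hδ0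
  have hδ1 : |δ| ≤ 1 / y := by
    have h1 : 1 / (p : ℝ) ≤ 1 / y := one_div_le_one_div_of_le hy0 hp1
    have h2 : 1 / (q : ℝ) ≤ 1 / y := one_div_le_one_div_of_le hy0 hq1
    have h3 : 0 < 1 / (p : ℝ) := by positivity
    have h4 : 0 < 1 / (q : ℝ) := by positivity
    rw [abs_le]
    constructor <;> linarith
  have hδ2 : 1 / |δ| ≤ 16 * y ^ 2 / |(p : ℝ) - q| := by
    rw [hδabs, one_div_div]
    refine div_le_div_of_nonneg_right ?_ habs.le
    calc (p : ℝ) * q ≤ (4 * y) * (4 * y) := mul_le_mul hp2 hq2 hq0.le (by positivity)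
      _ = _ := by ring
  set c : ℝ := (b p).val / (p : ℝ) - (b q).val / q with hc
  set t : ℝ := 4 / y with ht
  have ht0 : 0 < t := by positivity
  set A := (Finset.Icc 1 M).filter fun n : ℕ => ∃ m : ℤ, |n * δ - c - m| ≤ t with hA
  have hAcard : (A.card : ℝ) ≤ 19 * M / y + 1280 * y / |(p : ℝ) - q| := by
    refine (count_ne hδne c ht0.le M).trans ?_
    have e : ((M : ℝ) * |δ| + 2 * t + 1) * (2 * t / |δ| + 1) =
        2 * t * M + M * |δ| + (2 * t + 1) * (2 * t * (1 / |δ|) + 1) := by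
      field_simp
      ring
    rw [e]
    have ht8 : 2 * t ≤ 8 := by
      rw [ht]
      have : 4 / y ≤ 4 := by rw [div_le_iff₀ hy0]; linarith
      linarith
    have h1 : (M : ℝ) * |δ| ≤ M * (1 / y) := mul_le_mul_of_nonneg_left hδ1 (Nat.cast_nonneg M)
    have h2 : 2 * t * (1 / |δ|) ≤ 2 * t * (16 * y ^ 2 / |(p : ℝ) - q|) :=
      mul_le_mul_of_nonneg_left hδ2 (by positivity)
    have h3 : 2 * t * (16 * y ^ 2 / |(p : ℝ) - q|) = 128 * y / |(p : ℝ) - q| := by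
      rw [ht]; field_simp; norm_num
    have h4 : (2 * t + 1) * (2 * t * (1 / |δ|) + 1) ≤ 9 * (128 * y / |(p : ℝ) - q| + 1) := by
      have h5 : 0 ≤ 2 * t * (1 / |δ|) := by positivity
      rw [h3] at h2
      exact mul_le_mul (by linarith) (by linarith) (by linarith) (by norm_num)
    have h6 : 2 * t * (M : ℝ) = 8 * M / y := by rw [ht]; field_simp; ring
    have h7 : (1 : ℝ) ≤ M / y := by rw [le_div_iff₀ hy0]; linarith
    have h8 : 0 ≤ 128 * y / |(p : ℝ) - q| := by positivity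
    have e2 : 19 * (M : ℝ) / y + 1280 * y / |(p : ℝ) - q| =
        19 * (M / y) + 10 * (128 * y / |(p : ℝ) - q|) := by ring
    have e3 : 8 * (M : ℝ) / y = 8 * (M / y) := by ring
    have e4 : (M : ℝ) * (1 / y) = M / y := by ring
    rw [e2, h6, e3]
    rw [e4] at h1
    linarith
  have hgrid : ∀ n : ℕ, ((((Finset.Icc 1 J).filter fun j : ℕ => Fz b p n (j / J)).card : ℕ) : ℝ) ≤ 147 := by
    intro n
    have hw0 : (0 : ℝ) ≤ 2 / p := by positivity
    have h1 := count_pos (δ := 1 / (J : ℝ)) (by positivity) (((n : ℝ) - (b p).val) / p) hw0 J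
    have h2 : ((Finset.Icc 1 J).filter fun j : ℕ => Fz b p n (j / J)) ⊆
        (Finset.Icc 1 J).filter fun j : ℕ => ∃ m : ℤ,
          |j * (1 / (J : ℝ)) - ((n : ℝ) - (b p).val) / p - m| ≤ 2 / p := by
      intro j hj
      obtain ⟨hj1, hj2⟩ := Finset.mem_filter.1 hj
      obtain ⟨m, hm⟩ := Fz_real hpN hj2
      refine Finset.mem_filter.2 ⟨hj1, m, ?_⟩
      rw [mul_one_div]
      exact hm
    have h3 : ((((Finset.Icc 1 J).filter fun j : ℕ => Fz b p n (j / J)).card : ℕ) : ℝ) ≤ _ :=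
      (by exact_mod_cast Finset.card_le_card h2 : ((((Finset.Icc 1 J).filter fun j : ℕ =>
        Fz b p n (j / J)).card : ℕ) : ℝ) ≤ ((((Finset.Icc 1 J).filter fun j : ℕ => ∃ m : ℤ,
          |j * (1 / (J : ℝ)) - ((n : ℝ) - (b p).val) / p - m| ≤ 2 / p).card : ℕ) : ℝ)).trans h1
    refine h3.trans ?_
    have h4 : (J : ℝ) * (1 / J) = 1 := by field_simp
    have h5 : 2 * (2 / (p : ℝ)) ≤ 4 := by
      have : 2 / (p : ℝ) ≤ 2 := by rw [div_le_iff₀ hp0]; linarith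
      linarith
    have h6 : 2 * (2 / (p : ℝ)) / (1 / J) ≤ 20 := by
      rw [div_div_eq_mul_div, div_one]
      have : 2 * (2 / (p : ℝ)) * J = 4 * J / p := by ring
      rw [this, div_le_iff₀ hp0]
      linarith
    rw [h4]
    have h7 : (0 : ℝ) ≤ 2 * (2 / (p : ℝ)) / (1 / J) := by positivity
    calc (1 + 2 * (2 / (p : ℝ)) + 1) * (2 * (2 / (p : ℝ)) / (1 / J) + 1) ≤ 6 * 21 :=
          mul_le_mul (by linarith) (by linarith) (by linarith) (by norm_num)
      _ ≤ 147 := by norm_num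
  have hswap : ∑ j ∈ Finset.Icc 1 J, ((((Finset.Icc 1 M).filter fun n =>
      Fz b p n (j / J) ∧ Fz b q n (j / J)).card : ℕ) : ℝ) =
      ∑ n ∈ Finset.Icc 1 M, ((((Finset.Icc 1 J).filter fun j : ℕ =>
        Fz b p n (j / J) ∧ Fz b q n (j / J)).card : ℕ) : ℝ) := by
    simp only [Finset.card_filter]
    push_cast
    exact Finset.sum_comm
  rw [hswap]
  have hzero : ∀ n ∈ Finset.Icc 1 M, n ∉ A → ((((Finset.Icc 1 J).filter fun j : ℕ =>
      Fz b p n (j / J) ∧ Fz b q n (j / J)).card : ℕ) : ℝ) = 0 := by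
    intro n hn hnA
    rw [Nat.cast_eq_zero, Finset.card_eq_zero, Finset.filter_eq_empty_iff]
    rintro j _ ⟨h1, h2⟩
    apply hnA
    obtain ⟨m, hm⟩ := Fz_pair hpN hqN h1 h2
    refine Finset.mem_filter.2 ⟨hn, m, hm.trans ?_⟩
    have h3 : 2 / (p : ℝ) ≤ 2 / y := div_le_div_of_nonneg_left (by norm_num) hy0 hp1
    have h4 : 2 / (q : ℝ) ≤ 2 / y := div_le_div_of_nonneg_left (by norm_num) hy0 hq1
    have h5 : t = 2 / y + 2 / y := by rw [ht]; ring
    rw [h5]; linarith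
  calc ∑ n ∈ Finset.Icc 1 M, ((((Finset.Icc 1 J).filter fun j : ℕ =>
        Fz b p n (j / J) ∧ Fz b q n (j / J)).card : ℕ) : ℝ)
      = ∑ n ∈ A, ((((Finset.Icc 1 J).filter fun j : ℕ =>
        Fz b p n (j / J) ∧ Fz b q n (j / J)).card : ℕ) : ℝ) :=
        (Finset.sum_subset (Finset.filter_subset _ _) hzero).symm
    _ ≤ ∑ n ∈ A, (147 : ℝ) := by
        refine Finset.sum_le_sum fun n _ => ?_
        refine le_trans ?_ (hgrid n)
        have : ((Finset.Icc 1 J).filter fun j : ℕ => Fz b p n (j / J) ∧ Fz b q n (j / J)).card ≤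
            ((Finset.Icc 1 J).filter fun j : ℕ => Fz b p n (j / J)).card :=
          Finset.card_le_card fun j hj => Finset.mem_filter.2
            ⟨(Finset.mem_filter.1 hj).1, (Finset.mem_filter.1 hj).2.1⟩
        exact_mod_cast this
    _ = 147 * A.card := by rw [Finset.sum_const, nsmul_eq_mul, mul_comm]
    _ ≤ _ := mul_le_mul_of_nonneg_left hAcard (by norm_num)

/-- the sum of the reciprocal distances -/
lemma recip_dist {L : ℕ} (I : Finset ℕ) (p : ℕ) (hp : p ≤ L) (hI : ∀ q ∈ I, q ≤ L) :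
    ∑ q ∈ I.filter (fun q => p ≠ q), 1 / |(p : ℝ) - q| ≤ 2 * (1 + Real.log L) := by
  have hharm : ∑ d ∈ Finset.Icc 1 L, 1 / (d : ℝ) ≤ 1 + Real.log L := by
    have h := harmonic_le_one_add_log L
    rw [harmonic_eq_sum_Icc] at h
    push_cast at h
    simpa only [one_div] using h
  have h1 : ∑ q ∈ I.filter (fun q => p < q), 1 / |(p : ℝ) - q| ≤ ∑ d ∈ Finset.Icc 1 L, 1 / (d : ℝ) := by
    have e : ∑ q ∈ I.filter (fun q => p < q), 1 / |(p : ℝ) - q| =
        ∑ d ∈ (I.filter (fun q => p < q)).image (fun q => q - p), 1 / (d : ℝ) := by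
      rw [Finset.sum_image]
      · refine Finset.sum_congr rfl fun q hq => ?_
        have hlt := (Finset.mem_filter.1 hq).2
        have : (p : ℝ) < q := by exact_mod_cast hlt
        rw [Nat.cast_sub hlt.le, abs_sub_comm, abs_of_pos (by linarith)]
      · intro a ha c hc h
        have h1 := (Finset.mem_filter.1 ha).2
        have h2 := (Finset.mem_filter.1 hc).2
        simp only at h
        omega
    rw [e]
    refine Finset.sum_le_sum_of_subset_of_nonneg (fun d hd => ?_) fun _ _ _ => by positivity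
    obtain ⟨q, hq, rfl⟩ := Finset.mem_image.1 hd
    obtain ⟨h1, h2⟩ := Finset.mem_filter.1 hq
    have := hI q h1
    rw [Finset.mem_Icc]
    omega
  have h2 : ∑ q ∈ I.filter (fun q => q < p), 1 / |(p : ℝ) - q| ≤ ∑ d ∈ Finset.Icc 1 L, 1 / (d : ℝ) := by
    have e : ∑ q ∈ I.filter (fun q => q < p), 1 / |(p : ℝ) - q| =
        ∑ d ∈ (I.filter (fun q => q < p)).image (fun q => p - q), 1 / (d : ℝ) := by
      rw [Finset.sum_image]
      · refine Finset.sum_congr rfl fun q hq => ?_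
        have hlt := (Finset.mem_filter.1 hq).2
        have : (q : ℝ) < p := by exact_mod_cast hlt
        rw [Nat.cast_sub hlt.le, abs_of_pos (by linarith)]
      · intro a ha c hc h
        have h1 := (Finset.mem_filter.1 ha).2
        have h2 := (Finset.mem_filter.1 hc).2
        simp only at h
        omega
    rw [e]
    refine Finset.sum_le_sum_of_subset_of_nonneg (fun d hd => ?_) fun _ _ _ => by positivity
    obtain ⟨q, hq, rfl⟩ := Finset.mem_image.1 hd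
    obtain ⟨h1, h2⟩ := Finset.mem_filter.1 hq
    rw [Finset.mem_Icc]
    omega
  have h3 : I.filter (fun q => p ≠ q) = I.filter (fun q => p < q) ∪ I.filter (fun q => q < p) := by
    ext q
    simp only [Finset.mem_filter, Finset.mem_union]
    constructor
    · rintro ⟨h1, h2⟩
      rcases lt_or_gt_of_ne h2 with h | h
      · exact Or.inl ⟨h1, h⟩
      · exact Or.inr ⟨h1, h⟩
    · rintro (⟨h1, h2⟩ | ⟨h1, h2⟩)
      · exact ⟨h1, h2.ne⟩
      · exact ⟨h1, h2.ne'⟩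
  rw [h3]
  rw [Finset.sum_union]
  · linarith
  · rw [Finset.disjoint_left]
    intro a ha hb
    have := (Finset.mem_filter.1 ha).2
    have := (Finset.mem_filter.1 hb).2
    omega

end Pool.Agent.X37.RO
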