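import Mathlib
import Pool.Agent.X37.RO.Count
import Pool.Agent.X4.JB.Upper
import Pool.Agent.Results.MP_bb5cc8_nt.AlmostAllWindows

set_option autoImplicit false

/-!
# Rotated choices of residues: the exceptional set
-/

namespace Pool.Agent.X37.RO

open Finset Filter Topology MeasureTheory
open scoped NNReal
open Pool.Agent.H170R2.PC (InRange coveredCount)
open Pool.Agent.X163.PC (PR mem_PR)
open Pool.Agent.Results.MP_bb5cc8_nt.AlmostAllWindows (recipSum)
open Pool.Agent.Results.MP_bb5cc8_nt.AlmostAllWindows.Aux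

/-- all pairs, all grid points -/
lemma total (b : (p : ℕ) → ZMod p) {y : ℝ} (hy : 1 ≤ y) {M J : ℕ} (I : Finset ℕ)
    (hI : ∀ p ∈ I, y ≤ p ∧ (p : ℝ) ≤ 4 * y) (hyM : y ≤ M) (hJ : 1 ≤ J) (hJ5 : (J : ℝ) ≤ 5 * y) :
    ∑ j ∈ Finset.Icc 1 J, (DD b I M (j / J) : ℝ) ≤ 1600000 * (M * y * (1 + Real.log (4 * y))) := by
  classical
  have hy0 : 0 < y := by linarith
  have hM0 : (0 : ℝ) < M := by linarith
  set L := ⌊4 * y⌋₊ with hL
  have hLy : (L : ℝ) ≤ 4 * y := Nat.floor_le (by positivity)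
  have hL1 : 1 ≤ L := by rw [hL, Nat.one_le_floor_iff]; linarith
  have hIL : ∀ q ∈ I, q ≤ L := fun q hq => Nat.le_floor (hI q hq).2
  have hIcard : (I.card : ℝ) ≤ 4 * y := by
    have h1 : I ⊆ Finset.Icc 1 L := fun q hq => by
      rw [Finset.mem_Icc]
      refine ⟨?_, hIL q hq⟩
      have := (hI q hq).1
      have : (0 : ℝ) < q := by linarith
      have : 0 < q := by exact_mod_cast this
      omega
    have h2 := Finset.card_le_card h1
    rw [Nat.card_Icc, Nat.add_sub_cancel] at h2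
    have h3 : (I.card : ℝ) ≤ L := by exact_mod_cast h2
    linarith
  have hlog : Real.log L ≤ Real.log (4 * y) :=
    Real.log_le_log (by exact_mod_cast hL1) hLy
  have hlog0 : 0 ≤ Real.log L := Real.log_natCast_nonneg L
  have h1 : ∑ j ∈ Finset.Icc 1 J, (DD b I M (j / J) : ℝ) =
      ∑ z ∈ I.offDiag, ∑ j ∈ Finset.Icc 1 J, ((((Finset.Icc 1 M).filter fun n =>
        Fz b z.1 n (j / J) ∧ Fz b z.2 n (j / J)).card : ℕ) : ℝ) := by
    unfold DD
    push_cast
    exact Finset.sum_comm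
  rw [h1]
  have h2 : ∑ z ∈ I.offDiag, ∑ j ∈ Finset.Icc 1 J, ((((Finset.Icc 1 M).filter fun n =>
        Fz b z.1 n (j / J) ∧ Fz b z.2 n (j / J)).card : ℕ) : ℝ) ≤
      ∑ z ∈ I.offDiag, 147 * (19 * M / y + 1280 * y / |(z.1 : ℝ) - z.2|) := by
    refine Finset.sum_le_sum fun z hz => ?_
    obtain ⟨hz1, hz2, hz3⟩ := Finset.mem_offDiag.1 hz
    exact pair_grid b hy hz3 (hI _ hz1).1 (hI _ hz1).2 (hI _ hz2).1 (hI _ hz2).2 hyM hJ hJ5
  refine h2.trans ?_
  have e1 : I.offDiag = (I ×ˢ I).filter (fun z => z.1 ≠ z.2) := by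
    ext z
    simp only [Finset.mem_offDiag, Finset.mem_filter, Finset.mem_product]
    tauto
  have e2 : ∑ z ∈ I.offDiag, 1 / |(z.1 : ℝ) - z.2| =
      ∑ p ∈ I, ∑ q ∈ I.filter (fun q => p ≠ q), 1 / |(p : ℝ) - q| := by
    rw [e1, Finset.sum_filter, Finset.sum_product]
    refine Finset.sum_congr rfl fun p _ => ?_
    rw [Finset.sum_filter]
  have h3 : ∑ z ∈ I.offDiag, 1 / |(z.1 : ℝ) - z.2| ≤ 4 * y * (2 * (1 + Real.log (4 * y))) := by
    rw [e2]
    calc ∑ p ∈ I, ∑ q ∈ I.filter (fun q => p ≠ q), 1 / |(p : ℝ) - q|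
        ≤ ∑ p ∈ I, 2 * (1 + Real.log L) :=
          Finset.sum_le_sum fun p hp => recip_dist I p (hIL p hp) hIL
      _ = I.card * (2 * (1 + Real.log L)) := by rw [Finset.sum_const, nsmul_eq_mul]
      _ ≤ _ := mul_le_mul hIcard (by linarith) (by positivity) (by positivity)
  have h4 : (I.offDiag.card : ℝ) ≤ 16 * y ^ 2 := by
    have h5 : I.offDiag.card ≤ I.card * I.card := by
      rw [Finset.offDiag_card]; exact Nat.sub_le _ _
    have h6 : (I.offDiag.card : ℝ) ≤ I.card * I.card := by exact_mod_cast h5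
    have h7 : (I.card : ℝ) * I.card ≤ (4 * y) * (4 * y) :=
      mul_le_mul hIcard hIcard (Nat.cast_nonneg _) (by positivity)
    linarith
  have e3 : ∑ z ∈ I.offDiag, 147 * (19 * M / y + 1280 * y / |(z.1 : ℝ) - z.2|) =
      147 * (19 * M / y) * I.offDiag.card + 147 * (1280 * y) * ∑ z ∈ I.offDiag, 1 / |(z.1 : ℝ) - z.2| := by
    rw [Finset.mul_sum, Finset.card_eq_sum_ones]
    push_cast
    rw [Finset.mul_sum, ← Finset.sum_add_distrib]
    refine Finset.sum_congr rfl fun z _ => ?_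
    ring
  rw [e3]
  have hlog4 : 0 ≤ Real.log (4 * y) := Real.log_nonneg (by linarith)
  have h5 : 147 * (19 * (M : ℝ) / y) * I.offDiag.card ≤ 147 * (19 * M / y) * (16 * y ^ 2) :=
    mul_le_mul_of_nonneg_left h4 (by positivity)
  have h6 : 147 * (1280 * y) * ∑ z ∈ I.offDiag, 1 / |(z.1 : ℝ) - z.2| ≤
      147 * (1280 * y) * (4 * y * (2 * (1 + Real.log (4 * y)))) :=
    mul_le_mul_of_nonneg_left h3 (by positivity)
  have h7 : 147 * (19 * (M : ℝ) / y) * (16 * y ^ 2) = 44688 * (M * y) := by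
    field_simp; ring
  have h8 : 147 * (1280 * y) * (4 * y * (2 * (1 + Real.log (4 * y)))) =
      1505280 * (y * y * (1 + Real.log (4 * y))) := by ring
  have h9 : y * y * (1 + Real.log (4 * y)) ≤ M * y * (1 + Real.log (4 * y)) := by gcongr
  have h10 : (M : ℝ) * y ≤ M * y * (1 + Real.log (4 * y)) := by
    have : 0 ≤ (M : ℝ) * y * Real.log (4 * y) := by positivity
    linarith
  have h11 : 0 ≤ (M : ℝ) * y := by positivity
  rw [h7] at h5
  rw [h8] at h6
  linarith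

/-- the size of the primes at scale `k` -/
noncomputable def yk (α : ℝ) (k : ℕ) : ℝ := (2 : ℝ) ^ (k * α)

/-- the number of grid points at scale `k` -/
noncomputable def Jk (α : ℝ) (k : ℕ) : ℕ := ⌈4 * yk α k⌉₊

open Classical in
/-- the moduli at scale `k` -/
noncomputable def Ik (α : ℝ) (k : ℕ) : Finset ℕ :=
  (Finset.Icc 1 ⌊4 * yk α k⌋₊).filter fun p => yk α k ≤ p

/-- the threshold at scale `k` -/
noncomputable def Tk (η : ℝ) (k : ℕ) : ℝ := ((2 : ℝ) ^ (k + 1)) ^ (1 + η)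

open Classical in
/-- the bad grid points at scale `k` -/
noncomputable def Bk (b : (p : ℕ) → ZMod p) (α η : ℝ) (k : ℕ) : Finset ℕ :=
  (Finset.Icc 1 (Jk α k)).filter fun j => Tk η k < DD b (Ik α k) (2 ^ (k + 1)) (j / Jk α k)

section

variable {α η : ℝ} (h0 : 0 < α) (h1 : α < 1)
include h0

lemma yk_ge (k : ℕ) : 1 ≤ yk α k := Real.one_le_rpow (by norm_num) (by positivity)

lemma Jk_ge (k : ℕ) : 4 * yk α k ≤ Jk α k := Nat.le_ceil _

lemma Jk_one (k : ℕ) : 1 ≤ Jk α k := by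
  have h := Jk_ge h0 k
  have h2 := yk_ge h0 k
  have : (0 : ℝ) < Jk α k := by linarith
  have : 0 < Jk α k := by exact_mod_cast this
  omega

lemma Jk_le (k : ℕ) : (Jk α k : ℝ) ≤ 5 * yk α k := by
  have h := Nat.ceil_lt_add_one (show 0 ≤ 4 * yk α k by have := yk_ge h0 k; linarith)
  have h2 := yk_ge h0 k
  unfold Jk
  linarith

lemma log_yk (h1 : α < 1) (k : ℕ) : 1 + Real.log (4 * yk α k) ≤ k + 3 := by
  have hy := yk_ge h0 k
  rw [Real.log_mul (by norm_num) (by linarith)]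
  unfold yk
  rw [Real.log_rpow (by norm_num)]
  have h2 := Real.log_two_lt_d9
  have h3 := Real.log_two_gt_d9
  have h4 : Real.log 4 = 2 * Real.log 2 := by
    rw [show (4 : ℝ) = 2 ^ 2 by norm_num, Real.log_pow]; norm_num
  have h5 : (k : ℝ) * α * Real.log 2 ≤ k * 1 * 1 := by
    have hk : (0 : ℝ) ≤ k := Nat.cast_nonneg k
    have h6 : (k : ℝ) * α ≤ k * 1 := mul_le_mul_of_nonneg_left h1.le hk
    exact mul_le_mul h6 (by linarith) (by linarith) (by linarith)
  linarith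

include h1

lemma card_Bk (b : (p : ℕ) → ZMod p) (k : ℕ) :
    ((Bk b α η k).card : ℝ) ≤ 1600000 * ((k + 3) * yk α k * ((2 : ℝ) ^ (k + 1)) ^ (-η)) := by
  classical
  have hy := yk_ge h0 k
  have hy0 : 0 < yk α k := by linarith
  have hM : yk α k ≤ ((2 ^ (k + 1) : ℕ) : ℝ) := by
    push_cast
    unfold yk
    rw [← Real.rpow_natCast]
    refine Real.rpow_le_rpow_of_exponent_le (by norm_num) ?_
    push_cast
    have hk : (0 : ℝ) ≤ k := Nat.cast_nonneg k
    nlinarith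
  have htot := total b hy (M := 2 ^ (k + 1)) (J := Jk α k) (Ik α k) (fun p hp => by
    obtain ⟨h2, h3⟩ := Finset.mem_filter.1 hp
    refine ⟨h3, ?_⟩
    have h4 := (Finset.mem_Icc.1 h2).2
    have h5 : (p : ℝ) ≤ ⌊4 * yk α k⌋₊ := by exact_mod_cast h4
    exact h5.trans (Nat.floor_le (by positivity))) hM (Jk_one h0 k) (Jk_le h0 k)
  have hT0 : 0 < Tk η k := by unfold Tk; positivity
  have h2 : ((Bk b α η k).card : ℝ) * Tk η k ≤
      ∑ j ∈ Finset.Icc 1 (Jk α k), (DD b (Ik α k) (2 ^ (k + 1)) (j / Jk α k) : ℝ) := by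
    calc ((Bk b α η k).card : ℝ) * Tk η k = ∑ j ∈ Bk b α η k, Tk η k := by
          rw [Finset.sum_const, nsmul_eq_mul]
      _ ≤ ∑ j ∈ Bk b α η k, (DD b (Ik α k) (2 ^ (k + 1)) (j / Jk α k) : ℝ) :=
          Finset.sum_le_sum fun j hj => (Finset.mem_filter.1 hj).2.le
      _ ≤ _ := Finset.sum_le_sum_of_subset_of_nonneg (Finset.filter_subset _ _)
          fun _ _ _ => Nat.cast_nonneg _
  have h3 := h2.trans htot
  have hlog := log_yk h0 h1 k
  set X : ℝ := (2 : ℝ) ^ (k + 1) with hX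
  have hX0 : 0 < X := by positivity
  have e1 : ((2 ^ (k + 1) : ℕ) : ℝ) = X := by push_cast; rfl
  have e2 : Tk η k = X * X ^ η := by
    unfold Tk
    rw [Real.rpow_add hX0, Real.rpow_one]
  have e3 : X ^ (-η) * X ^ η = 1 := by
    rw [← Real.rpow_add hX0]; simp
  have hXη : 0 < X ^ η := by positivity
  rw [e1, e2] at h3
  have h4 : 1600000 * (X * yk α k * (1 + Real.log (4 * yk α k))) ≤
      1600000 * (X * yk α k * (k + 3)) := by gcongr
  have h5 : ((Bk b α η k).card : ℝ) * (X * X ^ η) ≤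
      (1600000 * ((k + 3) * yk α k * X ^ (-η))) * (X * X ^ η) := by
    calc ((Bk b α η k).card : ℝ) * (X * X ^ η) ≤ 1600000 * (X * yk α k * (k + 3)) := h3.trans h4
      _ = 1600000 * (X * yk α k * (k + 3)) * (X ^ (-η) * X ^ η) := by rw [e3, mul_one]
      _ = _ := by ring
  exact le_of_mul_le_mul_right h5 (by positivity)

/-- the dimension of the set of bad rotations -/
lemma dim_bad (b : (p : ℕ) → ZMod p) (hη : 0 < η) (s : ℝ≥0) (hs : 1 - η / α < s) :
    dimH (⋂ n : ℕ, ⋃ m : ℕ, ⋃ j ∈ Bk b α η (n + m),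
      Metric.closedBall ((j : ℝ) / Jk α (n + m)) (1 / (4 * yk α (n + m)))) ≤ s := by
  classical
  set γ : ℝ := η - α * (1 - s) with hγ
  have hγ0 : 0 < γ := by
    have h2 : 1 - η / α < (s : ℝ) := hs
    have h3 : 1 - (s : ℝ) < η / α := by linarith
    rw [lt_div_iff₀ h0] at h3
    rw [hγ]
    linarith
  set ρ : ℝ := (2 : ℝ) ^ (-(γ / 2)) with hρ
  have hρ0 : 0 < ρ := by positivity
  have hρ1 : ρ < 1 := Real.rpow_lt_one_of_one_lt_of_neg (by norm_num) (by linarith)
  obtain ⟨C, hC⟩ : ∃ C : ℝ, ∀ m : ℕ, ((m : ℝ) + 3) * ρ ^ m ≤ C := by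
    have h2 : Tendsto (fun m : ℕ => ((m : ℝ) + 3) * ρ ^ m) atTop (𝓝 (0 + 3 * 0)) := by
      have h3 := tendsto_pow_const_mul_const_pow_of_abs_lt_one 1 (show |ρ| < 1 by
        rw [abs_of_pos hρ0]; exact hρ1)
      have h4 := (tendsto_pow_atTop_nhds_zero_of_lt_one hρ0.le hρ1).const_mul 3
      refine (h3.add h4).congr fun m => ?_
      rw [pow_one]
      ring
    obtain ⟨C, hC⟩ := h2.bddAbove_range
    exact ⟨C, fun m => hC ⟨m, rfl⟩⟩
  have hC0 : 0 ≤ C := le_trans (by positivity) (hC 0)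
  refine Pool.Agent.X4.JB.dimH_limsup
    (fun k => ⋃ j ∈ Bk b α η k, Metric.closedBall ((j : ℝ) / Jk α k) (1 / (4 * yk α k)))
    (fun k => (Bk b α η k).image fun j : ℕ => (j : ℝ) / Jk α k) (fun k => 1 / (4 * yk α k)) s ρ
    (1600000 * C) (fun k => ?_) ?_ ?_ (fun k => ?_) hρ0.le hρ1 (by positivity) (fun k => ?_)
  · have := yk_ge h0 k
    positivity
  · have h2 : Tendsto (fun k : ℕ => yk α k) atTop atTop := by
      have h3 : Tendsto (fun k : ℕ => ((2 : ℝ) ^ α) ^ k) atTop atTop :=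
        tendsto_pow_atTop_atTop_of_one_lt (Real.one_lt_rpow (by norm_num) h0)
      refine h3.congr fun k => ?_
      unfold yk
      rw [mul_comm, Real.rpow_mul (by norm_num), Real.rpow_natCast]
    have h3 : Tendsto (fun k : ℕ => 4 * yk α k) atTop atTop := h2.const_mul_atTop (by norm_num)
    refine h3.inv_tendsto_atTop.congr fun k => ?_
    rw [Pi.inv_apply, one_div]
  · intro k l hkl
    have h2 : yk α k ≤ yk α l := by
      unfold yk
      refine Real.rpow_le_rpow_of_exponent_le (by norm_num) ?_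
      exact mul_le_mul_of_nonneg_right (by exact_mod_cast hkl) h0.le
    have h3 := yk_ge h0 k
    exact one_div_le_one_div_of_le (by linarith) (by linarith)
  · intro x hx
    simp only [Set.mem_iUnion] at hx ⊢
    obtain ⟨j, hj, hx⟩ := hx
    exact ⟨(j : ℝ) / Jk α k, Finset.mem_image_of_mem _ hj, hx⟩
  · have hy := yk_ge h0 k
    have hy0 : 0 < yk α k := by linarith
    have h2 : (((Bk b α η k).image fun j : ℕ => (j : ℝ) / Jk α k).card : ℝ) ≤
        1600000 * ((k + 3) * yk α k * ((2 : ℝ) ^ (k + 1)) ^ (-η)) := by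
      refine le_trans ?_ (card_Bk h0 h1 b k)
      exact_mod_cast Finset.card_image_le
    have h3 : (2 * (1 / (4 * yk α k))) ^ (s : ℝ) ≤ yk α k ^ (-(s : ℝ)) := by
      rw [Real.rpow_neg hy0.le, ← Real.inv_rpow hy0.le]
      refine Real.rpow_le_rpow (by positivity) ?_ s.2
      rw [← one_div]
      have e : 2 * (1 / (4 * yk α k)) = 1 / 2 * (1 / yk α k) := by field_simp; norm_num
      rw [e]
      have : 0 < 1 / yk α k := by positivity
      linarith
    have h4 : ((2 : ℝ) ^ (k + 1)) ^ (-η) ≤ (2 : ℝ) ^ (-(k * η)) := by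
      rw [← Real.rpow_natCast, ← Real.rpow_mul (by norm_num)]
      refine Real.rpow_le_rpow_of_exponent_le (by norm_num) ?_
      push_cast
      linarith
    have h5 : yk α k * yk α k ^ (-(s : ℝ)) * (2 : ℝ) ^ (-(k * η)) = ρ ^ k * ρ ^ k := by
      rw [hρ]
      unfold yk
      rw [← Real.rpow_mul (by norm_num), ← Real.rpow_add (by norm_num), ← Real.rpow_add (by norm_num),
        ← Real.rpow_natCast, ← Real.rpow_mul (by norm_num), ← Real.rpow_add (by norm_num)]
      congr 1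
      rw [hγ]
      ring
    calc (((Bk b α η k).image fun j : ℕ => (j : ℝ) / Jk α k).card : ℝ) *
          (2 * (1 / (4 * yk α k))) ^ (s : ℝ) ≤
        (1600000 * ((k + 3) * yk α k * ((2 : ℝ) ^ (k + 1)) ^ (-η))) * yk α k ^ (-(s : ℝ)) :=
          mul_le_mul h2 h3 (by positivity) (by positivity)
      _ ≤ (1600000 * ((k + 3) * yk α k * (2 : ℝ) ^ (-(k * η)))) * yk α k ^ (-(s : ℝ)) := by
          gcongr
      _ = 1600000 * (((k : ℝ) + 3) * (yk α k * yk α k ^ (-(s : ℝ)) * (2 : ℝ) ^ (-(k * η)))) := by ring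
      _ = 1600000 * ((((k : ℝ) + 3) * ρ ^ k) * ρ ^ k) := by rw [h5]; ring
      _ ≤ 1600000 * (C * ρ ^ k) := by
          have := hC k
          gcongr
      _ = _ := by ring

end

end Pool.Agent.X37.RO
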