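import Mathlib
import Pool.Agent.X37.RO.Bad

set_option autoImplicit false

/-!
# Rotated choices of residues: the bound outside the exceptional set
-/

namespace Pool.Agent.X37.RO

open Finset Filter Topology MeasureTheory
open scoped NNReal ENNReal
open Pool.Agent.H170R2.PC (InRange coveredCount)
open Pool.Agent.X163.PC (PR mem_PR)
open Pool.Agent.Results.MP_bb5cc8_nt.AlmostAllWindows (recipSum)
open Pool.Agent.Results.MP_bb5cc8_nt.AlmostAllWindows.Aux

/-- the rotated choice -/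
noncomputable def rotate (b : (p : ℕ) → ZMod p) (θ : ℝ) (p : ℕ) : ZMod p := b p + ((⌊θ * p⌋ : ℤ) : ZMod p)

/-- few coincidences imply many covered integers -/
lemma lower_of {α κ : ℝ} (h0 : 0 < α) (h1 : α < 1) (hκ : 0 < κ) : ∀ᶠ N : ℕ in atTop,
    ∀ (a : (p : ℕ) → ZMod p) (T : ℝ), (N : ℝ) ^ (1 - κ) / 2 ≤ T →
    ∑ n ∈ Finset.Icc 1 N, ((mult (PR α N) a n : ℝ) * mult (PR α N) a n - mult (PR α N) a n) ≤ T →
    ((N : ℝ) ^ (1 - κ) / 2) ^ 2 / (2 * T) ≤ coveredCount α N a := by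
  have hpow : Tendsto (fun N : ℕ => (N : ℝ) ^ (1 - α)) atTop atTop :=
    (tendsto_rpow_atTop (by linarith)).comp tendsto_natCast_atTop_atTop
  filter_upwards [recip_lower h0 hκ, hpow.eventually_ge_atTop 4, eventually_ge_atTop 1]
    with N hN1 hN2 hN3 a T hT hsum
  have hN0 : (0 : ℝ) < N := by exact_mod_cast hN3
  set Q := PR α N with hQ
  set R : ℝ := ∑ n ∈ Finset.Icc 1 N, (mult Q a n : ℝ) with hR
  set R0 : ℝ := (N : ℝ) ^ (1 - κ) / 2 with hR0
  have hR00 : 0 < R0 := by positivity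
  have hT0 : 0 < T := by linarith
  have h2 : R0 ≤ R := by
    have h3 := sum_mult_lower (α := α) N a
    have h4 := card_le_recip (α := α) hN3
    have h5 : (N : ℝ) = (N : ℝ) ^ α * (N : ℝ) ^ (1 - α) := by
      rw [← Real.rpow_add hN0]; simp
    have hσ : 0 ≤ recipSum α N := by
      unfold recipSum
      exact Finset.sum_nonneg fun p _ => by positivity
    have h6 : 4 * ((N : ℝ) ^ α * recipSum α N) ≤ N * recipSum α N := by
      nth_rewrite 2 [h5]
      have h7 : 0 ≤ (N : ℝ) ^ α * recipSum α N := by positivity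
      calc 4 * ((N : ℝ) ^ α * recipSum α N) ≤ (N : ℝ) ^ (1 - α) * ((N : ℝ) ^ α * recipSum α N) :=
            mul_le_mul_of_nonneg_right hN2 h7
        _ = _ := by ring
    rw [hR, hR0]
    linarith
  have h3 := cauchy Q N a
  rw [← hR] at h3
  have h4 : ∑ n ∈ Finset.Icc 1 N, (mult Q a n : ℝ) ^ 2 ≤ R + T := by
    have e : ∑ n ∈ Finset.Icc 1 N, (mult Q a n : ℝ) ^ 2 = R +
        ∑ n ∈ Finset.Icc 1 N, ((mult Q a n : ℝ) * mult Q a n - mult Q a n) := by
      rw [hR, ← Finset.sum_add_distrib]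
      refine Finset.sum_congr rfl fun n _ => ?_
      ring
    rw [e]
    linarith
  rw [coveredCount_eq]
  set S : ℝ := ((cov Q N a).card : ℝ) with hS
  have hS0 : 0 ≤ S := Nat.cast_nonneg _
  have h5 : R ^ 2 ≤ S * (R + T) := h3.trans (mul_le_mul_of_nonneg_left h4 hS0)
  rw [div_le_iff₀ (by positivity)]
  rcases le_total R T with h | h
  · have h6 : S * (R + T) ≤ S * (2 * T) := mul_le_mul_of_nonneg_left (by linarith) hS0
    have h7 : R0 ^ 2 ≤ R ^ 2 := pow_le_pow_left₀ hR00.le h2 2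
    linarith
  · have hR' : 0 < R := by linarith
    have h6 : R * R ≤ (2 * S) * R := by
      have : S * (R + T) ≤ S * (2 * R) := mul_le_mul_of_nonneg_left (by linarith) hS0
      nlinarith
    have h7 : R ≤ 2 * S := le_of_mul_le_mul_right h6 hR'
    calc R0 ^ 2 = R0 * R0 := sq _
      _ ≤ R * T := mul_le_mul h2 hT hR00.le hR'.le
      _ ≤ (2 * S) * T := mul_le_mul_of_nonneg_right h7 hT0.le
      _ = _ := by ring

/-- the coincidences of the rotated choice -/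
lemma coinc_le {α η : ℝ} (h0 : 0 < α) (h1 : α < 1) {b : (p : ℕ) → ZMod p} {θ : ℝ} (hθ0 : 0 < θ)
    (hθ1 : θ ≤ 1) {k N : ℕ} (hk : 2 ^ k ≤ N) (hk2 : N < 2 ^ (k + 1))
    (hE : θ ∉ ⋃ j ∈ Bk b α η k, Metric.closedBall ((j : ℝ) / Jk α k) (1 / (4 * yk α k))) :
    ∑ n ∈ Finset.Icc 1 N, ((mult (PR α N) (rotate b θ) n : ℝ) * mult (PR α N) (rotate b θ) n -
      mult (PR α N) (rotate b θ) n) ≤ Tk η k := by
  classical
  have hy := yk_ge h0 k
  have hy0 : 0 < yk α k := by linarith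
  have hJ1 := Jk_one h0 k
  have hJ4 := Jk_ge h0 k
  have hJ0 : (0 : ℝ) < Jk α k := by linarith
  set J := Jk α k with hJ
  set j := ⌈θ * J⌉₊ with hj
  have hjI : j ∈ Finset.Icc 1 J := by
    rw [Finset.mem_Icc]
    constructor
    · rw [hj, Nat.one_le_ceil_iff]; positivity
    · rw [hj, Nat.ceil_le]
      calc θ * (J : ℝ) ≤ 1 * J := mul_le_mul_of_nonneg_right hθ1 hJ0.le
        _ = J := one_mul _
  have hdist : |θ - (j : ℝ) / J| ≤ 1 / J := by
    have h2 : θ * J ≤ j := Nat.le_ceil _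
    have h3 : (j : ℝ) < θ * J + 1 := Nat.ceil_lt_add_one (by positivity)
    have e : θ - (j : ℝ) / J = (θ * J - j) / J := by field_simp
    rw [e, abs_div, abs_of_pos hJ0]
    refine div_le_div_of_nonneg_right ?_ hJ0.le
    rw [abs_le]
    constructor <;> linarith
  have hJy : 1 / (J : ℝ) ≤ 1 / (4 * yk α k) := one_div_le_one_div_of_le (by positivity) hJ4
  have hnot : j ∉ Bk b α η k := by
    intro hjB
    apply hE
    simp only [Set.mem_iUnion]
    refine ⟨j, hjB, ?_⟩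
    rw [Metric.mem_closedBall, Real.dist_eq]
    exact hdist.trans hJy
  have hDD : (DD b (Ik α k) (2 ^ (k + 1)) (j / J) : ℝ) ≤ Tk η k := by
    by_contra hc
    exact hnot (Finset.mem_filter.2 ⟨hjI, not_le.1 hc⟩)
  have hN1 : 1 ≤ N := le_trans Nat.one_le_two_pow hk
  have hN0 : (0 : ℝ) < N := by exact_mod_cast hN1
  -- the range of the primes
  have hsub : PR α N ⊆ Ik α k := by
    intro p hp
    obtain ⟨hpp, hp1, hp2⟩ := mem_PR.1 hp
    have h2 : yk α k ≤ (N : ℝ) ^ α := by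
      unfold yk
      rw [Real.rpow_mul (by norm_num), Real.rpow_natCast]
      refine Real.rpow_le_rpow (by positivity) ?_ h0.le
      exact_mod_cast hk
    have h3 : (N : ℝ) ^ α ≤ 2 * yk α k := by
      have h4 : (N : ℝ) ^ α ≤ ((2 : ℝ) ^ (k + 1)) ^ α := by
        refine Real.rpow_le_rpow hN0.le ?_ h0.le
        have : (N : ℝ) < ((2 ^ (k + 1) : ℕ) : ℝ) := by exact_mod_cast hk2
        push_cast at this
        exact this.le
      refine h4.trans ?_
      unfold yk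
      rw [← Real.rpow_natCast, ← Real.rpow_mul (by norm_num)]
      have e : ((k + 1 : ℕ) : ℝ) * α = α + k * α := by push_cast; ring
      rw [e, Real.rpow_add (by norm_num)]
      refine mul_le_mul_of_nonneg_right ?_ (by positivity)
      calc (2 : ℝ) ^ α ≤ 2 ^ (1 : ℝ) := Real.rpow_le_rpow_of_exponent_le (by norm_num) h1.le
        _ = 2 := Real.rpow_one _
    unfold Ik
    rw [Finset.mem_filter, Finset.mem_Icc]
    refine ⟨⟨hpp.one_lt.le, Nat.le_floor ?_⟩, h2.trans hp1⟩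
    linarith
  have hle : ∀ n ∈ Finset.Icc 1 N, ((mult (PR α N) (rotate b θ) n : ℝ) * mult (PR α N) (rotate b θ) n -
      mult (PR α N) (rotate b θ) n) ≤
      ∑ z ∈ (Ik α k).offDiag, if (Fz b z.1 n (j / J) ∧ Fz b z.2 n (j / J)) then (1 : ℝ) else 0 := by
    intro n _
    have h2 := mult_sq (PR α N) (rotate b θ) n
    have h3 : ((mult (PR α N) (rotate b θ) n : ℝ) * mult (PR α N) (rotate b θ) n -
      mult (PR α N) (rotate b θ) n) = ∑ z ∈ (PR α N).offDiag,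
        if ((n : ZMod z.1) = rotate b θ z.1 ∧ (n : ZMod z.2) = rotate b θ z.2) then (1 : ℝ) else 0 := by
      have h4 : (((mult (PR α N) (rotate b θ) n : ℤ) * mult (PR α N) (rotate b θ) n -
        mult (PR α N) (rotate b θ) n : ℤ) : ℝ) = ((∑ z ∈ (PR α N).offDiag,
        if ((n : ZMod z.1) = rotate b θ z.1 ∧ (n : ZMod z.2) = rotate b θ z.2) then (1 : ℤ) else 0 : ℤ) : ℝ) := by
        rw [h2]
      push_cast at h4
      exact h4
    rw [h3]
    have hfz : ∀ p ∈ Ik α k, (n : ZMod p) = rotate b θ p → Fz b p n (j / J) := by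
      intro p hp he
      refine Fz_near (θ := θ) ?_ he
      have h4 := (Finset.mem_Icc.1 (Finset.mem_filter.1 hp).1).2
      have h5 : (p : ℝ) ≤ ⌊4 * yk α k⌋₊ := by exact_mod_cast h4
      have h6 : (p : ℝ) ≤ 4 * yk α k := h5.trans (Nat.floor_le (by positivity))
      calc |θ - (j : ℝ) / J| * p ≤ 1 / (4 * yk α k) * (4 * yk α k) :=
            mul_le_mul (hdist.trans hJy) h6 (Nat.cast_nonneg p) (by positivity)
        _ = 1 := by field_simp
    calc ∑ z ∈ (PR α N).offDiag,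
        (if ((n : ZMod z.1) = rotate b θ z.1 ∧ (n : ZMod z.2) = rotate b θ z.2) then (1 : ℝ) else 0)
        ≤ ∑ z ∈ (PR α N).offDiag, (if (Fz b z.1 n (j / J) ∧ Fz b z.2 n (j / J)) then (1 : ℝ) else 0) := by
          refine Finset.sum_le_sum fun z hz => ?_
          obtain ⟨hz1, hz2, _⟩ := Finset.mem_offDiag.1 hz
          by_cases hc : (n : ZMod z.1) = rotate b θ z.1 ∧ (n : ZMod z.2) = rotate b θ z.2
          · rw [if_pos hc, if_pos ⟨hfz _ (hsub hz1) hc.1, hfz _ (hsub hz2) hc.2⟩]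
          · rw [if_neg hc]
            split_ifs <;> norm_num
      _ ≤ _ := Finset.sum_le_sum_of_subset_of_nonneg
          (fun z hz => by
            obtain ⟨hz1, hz2, hz3⟩ := Finset.mem_offDiag.1 hz
            exact Finset.mem_offDiag.2 ⟨hsub hz1, hsub hz2, hz3⟩)
          fun z _ _ => by split_ifs <;> norm_num
  calc ∑ n ∈ Finset.Icc 1 N, ((mult (PR α N) (rotate b θ) n : ℝ) * mult (PR α N) (rotate b θ) n -
      mult (PR α N) (rotate b θ) n)
      ≤ ∑ n ∈ Finset.Icc 1 N, ∑ z ∈ (Ik α k).offDiag,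
        (if (Fz b z.1 n (j / J) ∧ Fz b z.2 n (j / J)) then (1 : ℝ) else 0) := Finset.sum_le_sum hle
    _ ≤ ∑ n ∈ Finset.Icc 1 (2 ^ (k + 1)), ∑ z ∈ (Ik α k).offDiag,
        (if (Fz b z.1 n (j / J) ∧ Fz b z.2 n (j / J)) then (1 : ℝ) else 0) := by
        refine Finset.sum_le_sum_of_subset_of_nonneg (Finset.Icc_subset_Icc_right hk2.le)
          fun n _ _ => Finset.sum_nonneg fun z _ => by split_ifs <;> norm_num
    _ = (DD b (Ik α k) (2 ^ (k + 1)) (j / J) : ℝ) := by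
        unfold DD
        rw [Finset.sum_comm]
        push_cast
        refine Finset.sum_congr rfl fun z _ => ?_
        rw [Finset.card_filter]
        push_cast
        rfl
    _ ≤ _ := hDD

/-- outside the exceptional set -/
lemma good_rot {α η ε : ℝ} (h0 : 0 < α) (h1 : α < 1) (hη : 0 < η) (hηε : η < ε) (hη1 : η ≤ 1)
    {b : (p : ℕ) → ZMod p} {θ : ℝ} (hθ0 : 0 < θ) (hθ1 : θ ≤ 1)
    (hE : θ ∉ ⋂ n : ℕ, ⋃ m : ℕ, ⋃ j ∈ Bk b α η (n + m),
      Metric.closedBall ((j : ℝ) / Jk α (n + m)) (1 / (4 * yk α (n + m)))) :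
    ∀ᶠ N : ℕ in atTop, (N : ℝ) ^ (1 - ε) ≤ coveredCount α N (rotate b θ) := by
  rw [Set.mem_iInter, not_forall] at hE
  obtain ⟨k0, hk0⟩ := hE
  rw [Set.mem_iUnion, not_exists] at hk0
  set κ : ℝ := (ε - η) / 4 with hκ
  have hκ0 : 0 < κ := by rw [hκ]; linarith
  have hpow : Tendsto (fun N : ℕ => (N : ℝ) ^ ((ε - η) / 2)) atTop atTop :=
    (tendsto_rpow_atTop (by linarith)).comp tendsto_natCast_atTop_atTop
  filter_upwards [lower_of h0 h1 hκ0, eventually_ge_atTop (2 ^ k0), hpow.eventually_ge_atTop 32]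
    with N hlow hN hN32
  have hN1 : 1 ≤ N := le_trans Nat.one_le_two_pow hN
  have hN0 : (0 : ℝ) < N := by exact_mod_cast hN1
  have hN1' : (1 : ℝ) ≤ N := by exact_mod_cast hN1
  set k := Nat.log 2 N with hk
  have hk1 : 2 ^ k ≤ N := Nat.pow_log_le_self 2 (by omega)
  have hk2 : N < 2 ^ (k + 1) := Nat.lt_pow_succ_log_self (by norm_num) N
  have hkk : k0 ≤ k := by
    rw [hk]
    exact Nat.le_log_of_pow_le (by norm_num) hN
  have hnot := hk0 (k - k0)
  rw [Nat.add_sub_cancel' hkk] at hnot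
  have hc := coinc_le h0 h1 hθ0 hθ1 hk1 hk2 hnot
  have hk2' : (N : ℝ) < (2 : ℝ) ^ (k + 1) := by
    have : (N : ℝ) < ((2 ^ (k + 1) : ℕ) : ℝ) := by exact_mod_cast hk2
    push_cast at this
    exact this
  have hk1' : (2 : ℝ) ^ (k + 1) ≤ 2 * N := by
    have : ((2 ^ k : ℕ) : ℝ) ≤ N := by exact_mod_cast hk1
    push_cast at this
    rw [pow_succ]
    linarith
  have hT1 : (N : ℝ) ≤ Tk η k := by
    unfold Tk
    have h2 : (1 : ℝ) ≤ (2 : ℝ) ^ (k + 1) := one_le_pow₀ (by norm_num)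
    calc (N : ℝ) ≤ (2 : ℝ) ^ (k + 1) := hk2'.le
      _ = ((2 : ℝ) ^ (k + 1)) ^ (1 : ℝ) := (Real.rpow_one _).symm
      _ ≤ _ := Real.rpow_le_rpow_of_exponent_le h2 (by linarith)
  have hT2 : Tk η k ≤ 4 * (N : ℝ) ^ (1 + η) := by
    unfold Tk
    calc ((2 : ℝ) ^ (k + 1)) ^ (1 + η) ≤ (2 * (N : ℝ)) ^ (1 + η) :=
          Real.rpow_le_rpow (by positivity) hk1' (by linarith)
      _ = (2 : ℝ) ^ (1 + η) * (N : ℝ) ^ (1 + η) := Real.mul_rpow (by norm_num) hN0.le
      _ ≤ 4 * (N : ℝ) ^ (1 + η) := by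
          refine mul_le_mul_of_nonneg_right ?_ (by positivity)
          calc (2 : ℝ) ^ (1 + η) ≤ 2 ^ (2 : ℝ) :=
                Real.rpow_le_rpow_of_exponent_le (by norm_num) (by linarith)
            _ = 4 := by norm_num
  have hpos : 0 < (N : ℝ) ^ (1 - κ) := by positivity
  have h2 := hlow (rotate b θ) (Tk η k) (by
    have : (N : ℝ) ^ (1 - κ) ≤ N := by
      calc (N : ℝ) ^ (1 - κ) ≤ (N : ℝ) ^ (1 : ℝ) :=
            Real.rpow_le_rpow_of_exponent_le hN1' (by linarith)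
        _ = N := Real.rpow_one _
    linarith) hc
  refine le_trans ?_ h2
  have hT0 : 0 < Tk η k := by linarith
  rw [le_div_iff₀ (by positivity)]
  have e1 : ((N : ℝ) ^ (1 - κ) / 2) ^ 2 = (N : ℝ) ^ (2 - 2 * κ) / 4 := by
    rw [div_pow, ← Real.rpow_natCast ((N : ℝ) ^ (1 - κ)), ← Real.rpow_mul hN0.le]
    norm_num
    ring_nf
  rw [e1]
  have e2 : (N : ℝ) ^ (2 - 2 * κ) = (N : ℝ) ^ (1 - ε) * (N : ℝ) ^ (1 + η) * (N : ℝ) ^ ((ε - η) / 2) := by
    rw [← Real.rpow_add hN0, ← Real.rpow_add hN0, hκ]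
    congr 1
    ring
  rw [e2]
  have h3 : 0 < (N : ℝ) ^ (1 - ε) * (N : ℝ) ^ (1 + η) := by positivity
  have h4 : (N : ℝ) ^ (1 - ε) * (2 * Tk η k) ≤ (N : ℝ) ^ (1 - ε) * (8 * (N : ℝ) ^ (1 + η)) :=
    mul_le_mul_of_nonneg_left (by linarith) (by positivity)
  have h5 : (N : ℝ) ^ (1 - ε) * (N : ℝ) ^ (1 + η) * 32 ≤
      (N : ℝ) ^ (1 - ε) * (N : ℝ) ^ (1 + η) * (N : ℝ) ^ ((ε - η) / 2) :=
    mul_le_mul_of_nonneg_left hN32 h3.le
  linarith

lemma rotate_add_int (b : (p : ℕ) → ZMod p) (θ : ℝ) (z : ℤ) : rotate b (θ + z) = rotate b θ := by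
  funext p
  unfold rotate
  have e : (θ + z) * (p : ℝ) = θ * p + ((z * p : ℤ) : ℝ) := by push_cast; ring
  rw [e, Int.floor_add_intCast]
  push_cast
  rw [ZMod.natCast_self, mul_zero, add_zero]

/-- **The dimension of the bad rotations.** -/
theorem dim_rot {α ε : ℝ} (h0 : 0 < α) (h1 : α < 1) (hε : 0 < ε) (hεα : ε ≤ α)
    (b : (p : ℕ) → ZMod p) :
    dimH {θ : ℝ | ∃ᶠ N : ℕ in atTop, (coveredCount α N (rotate b θ) : ℝ) < (N : ℝ) ^ (1 - ε)} ≤
      ENNReal.ofReal (1 - ε / α) := by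
  set B : Set ℝ := {θ : ℝ | ∃ᶠ N : ℕ in atTop,
    (coveredCount α N (rotate b θ) : ℝ) < (N : ℝ) ^ (1 - ε)} with hB
  have hdiv : ε / α ≤ 1 := (div_le_one h0).2 hεα
  have hcell : dimH (B ∩ Set.Ioc 0 1) ≤ ENNReal.ofReal (1 - ε / α) := by
    refine ENNReal.le_of_forall_pos_le_add fun δ hδ _ => ?_
    -- choose `η`
    set s : ℝ≥0 := Real.toNNReal (1 - ε / α) + δ with hs
    have hs' : (s : ℝ) = 1 - ε / α + δ := by
      rw [hs]
      push_cast
      rw [Real.coe_toNNReal _ (by linarith)]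
    have hδ0 : (0 : ℝ) < δ := hδ
    obtain ⟨η, hη0, hηε, hη1⟩ : ∃ η : ℝ, 0 < η ∧ η < ε ∧ 1 - η / α < s := by
      refine ⟨max (ε / 2) (ε - α * (δ / 2)), ?_, ?_, ?_⟩
      · exact lt_max_of_lt_left (by linarith)
      · exact max_lt (by linarith) (by
          have : 0 < α * (δ / 2 : ℝ) := by positivity
          linarith)
      · rw [hs']
        have h2 : ε - α * (δ / 2) ≤ max (ε / 2) (ε - α * (δ / 2)) := le_max_right _ _
        have h3 : (ε - α * (δ / 2)) / α ≤ max (ε / 2) (ε - α * (δ / 2)) / α :=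
          div_le_div_of_nonneg_right h2 h0.le
        have h4 : (ε - α * (δ / 2)) / α = ε / α - δ / 2 := by field_simp
        linarith
    have hsub : B ∩ Set.Ioc 0 1 ⊆ ⋂ n : ℕ, ⋃ m : ℕ, ⋃ j ∈ Bk b α η (n + m),
        Metric.closedBall ((j : ℝ) / Jk α (n + m)) (1 / (4 * yk α (n + m))) := by
      rintro θ ⟨hθB, hθ0, hθ1⟩
      by_contra hc
      have hgood := good_rot h0 h1 hη0 hηε (by linarith) hθ0 hθ1 hc
      obtain ⟨N, hN1, hN2⟩ := (hθB.and_eventually hgood).exists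
      linarith
    refine (dimH_mono hsub).trans ((dim_bad h0 h1 b hη0 s hη1).trans (le_of_eq ?_))
    rw [hs]
    push_cast
    rfl
  have hcov : B ⊆ ⋃ z : ℤ, (fun x : ℝ => x + z) '' (B ∩ Set.Ioc 0 1) := by
    intro θ hθ
    rw [Set.mem_iUnion]
    refine ⟨⌈θ⌉ - 1, θ - ((⌈θ⌉ - 1 : ℤ) : ℝ), ⟨?_, ?_, ?_⟩, ?_⟩
    · have e : rotate b (θ - ((⌈θ⌉ - 1 : ℤ) : ℝ)) = rotate b θ := by
        have := rotate_add_int b (θ - ((⌈θ⌉ - 1 : ℤ) : ℝ)) (⌈θ⌉ - 1)
        rw [sub_add_cancel] at this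
        exact this.symm
      simp only [hB, Set.mem_ofPred_eq] at hθ ⊢
      rw [e]
      exact hθ
    · push_cast
      have := Int.ceil_lt_add_one θ
      linarith
    · push_cast
      have := Int.le_ceil θ
      linarith
    · simp
  refine (dimH_mono hcov).trans ?_
  rw [dimH_iUnion]
  refine iSup_le fun z => ?_
  have hiso : Isometry fun x : ℝ => x + z := isometry_add_right _
  rw [hiso.dimH_image]
  exact hcell

/-- almost every rotation is good -/
theorem ae_rot {α : ℝ} (h0 : 0 < α) (h1 : α < 1) (b : (p : ℕ) → ZMod p) :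
    ∀ᵐ θ : ℝ, ∀ ε : ℝ, 0 < ε →
      ∀ᶠ N : ℕ in atTop, (N : ℝ) ^ (1 - ε) ≤ coveredCount α N (rotate b θ) := by
  have hm : ∀ m : ℕ, ∀ᵐ θ : ℝ,
      ∀ᶠ N : ℕ in atTop, (N : ℝ) ^ (1 - α / ((m : ℝ) + 1)) ≤ coveredCount α N (rotate b θ) := by
    intro m
    have hm1 : (0 : ℝ) < (m : ℝ) + 1 := by positivity
    have h2 := dim_rot h0 h1 (ε := α / ((m : ℝ) + 1)) (by positivity) (by
      rw [div_le_iff₀ hm1]
      have : (0 : ℝ) ≤ m := Nat.cast_nonneg m
      nlinarith) b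
    have h3 : dimH {θ : ℝ | ∃ᶠ N : ℕ in atTop,
        (coveredCount α N (rotate b θ) : ℝ) < (N : ℝ) ^ (1 - α / ((m : ℝ) + 1))} < ((1 : ℝ≥0) : ℝ≥0∞) := by
      refine h2.trans_lt ?_
      rw [ENNReal.coe_one, ENNReal.ofReal_lt_one]
      have : 0 < α / ((m : ℝ) + 1) / α := by positivity
      linarith
    have h4 : volume {θ : ℝ | ∃ᶠ N : ℕ in atTop,
        (coveredCount α N (rotate b θ) : ℝ) < (N : ℝ) ^ (1 - α / ((m : ℝ) + 1))} = 0 := by
      have h5 := hausdorffMeasure_of_dimH_lt h3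
      rw [NNReal.coe_one, hausdorffMeasure_real] at h5
      exact h5
    rw [ae_iff]
    refine measure_mono_null (fun θ hθ => ?_) h4
    simp only [Set.mem_ofPred_eq] at hθ ⊢
    rw [Filter.not_eventually] at hθ
    exact hθ.mono fun N hN => not_le.1 hN
  filter_upwards [ae_all_iff.2 hm] with θ hθ ε hε
  obtain ⟨m, hm⟩ := exists_nat_gt (α / ε)
  have hle : α / ((m : ℝ) + 1) ≤ ε := by
    have hm1 : (0 : ℝ) < (m : ℝ) + 1 := by positivity
    rw [div_le_iff₀ hm1]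
    rw [div_lt_iff₀ hε] at hm
    nlinarith
  filter_upwards [hθ m, eventually_ge_atTop 1] with N hN hN1
  refine le_trans ?_ hN
  exact Real.rpow_le_rpow_of_exponent_le (by exact_mod_cast hN1) (by linarith)

end Pool.Agent.X37.RO
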